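import Pool.Agent.Helper28.HT.Eval
import Pool.Agent.Helper94.HT.Algebra

/-!
# Exponentials of arbitrary classes of type `(1,1)` and the rank criterion
-/

set_option autoImplicit false

namespace Pool.Agent.Hodge98

open Pool.Agent.Hodge81 Complex Module Polynomial

section

variable {n : ℕ} {A : Type*} [Ring A] [Algebra ℂ A] {X : HodgeRing n A} (P : PolyvectorAction X)

/-- the truncated exponential -/
noncomputable def ex (n : ℕ) {A : Type*} [Ring A] [Algebra ℂ A] (t : A) : A :=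
  ∑ j ∈ Finset.range (n + 1), (((j.factorial : ℕ) : ℂ)⁻¹) • t ^ j

theorem pow_eq_zero_of_lt (X : HodgeRing n A) {t : A} (ht : t ∈ X.H 1 1) {k : ℕ} (h : n < k) :
    t ^ k = 0 := by
  rw [show k = (k - (n + 1)) + (n + 1) by omega, pow_add, X.pow_succ_eq_zero ht, mul_zero]

theorem ex_eq (X : HodgeRing n A) {t : A} (ht : t ∈ X.H 1 1) {N : ℕ} (hN : n < N) :
    ex n t = ∑ j ∈ Finset.range N, (((j.factorial : ℕ) : ℂ)⁻¹) • t ^ j := by
  unfold ex
  refine Finset.sum_subset (Finset.range_subset_range.2 (by omega)) fun j _ hj => ?_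
  rw [Finset.mem_range, not_lt] at hj
  rw [pow_eq_zero_of_lt X ht (by omega), smul_zero]

theorem ex_central (X : HodgeRing n A) {t : A} (ht : t ∈ X.H 1 1) (v : A) :
    v * ex n t = ex n t * v := by
  unfold ex
  rw [Finset.mul_sum, Finset.sum_mul]
  refine Finset.sum_congr rfl fun j _ => ?_
  rw [mul_smul_comm, smul_mul_assoc, X.comm_pow_of_mem ht]

theorem ex_column (X : HodgeRing n A) {t : A} (ht : t ∈ X.H 1 1) : ex n t ∈ X.column 0 := by
  unfold ex
  refine Submodule.sum_mem _ fun j _ => Submodule.smul_mem _ _ ?_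
  have h1 : t ^ j ∈ X.H j j := by
    have := X.pow_mem ht X.one_mem j
    rwa [mul_one, zero_add] at this
  exact X.mem_column (by simp) h1

/-- the commutator with a class -/
noncomputable def deltaT (t : A) (f : Module.End ℂ A) : Module.End ℂ A :=
  f * LinearMap.mulLeft ℂ t - LinearMap.mulLeft ℂ t * f

theorem deltaT_apply (t : A) (f : Module.End ℂ A) (v : A) :
    deltaT t f v = f (t * v) - t * f v := rfl

theorem apply_mul (t : A) (f : Module.End ℂ A) (v : A) :
    f (t * v) = t * f v + deltaT t f v := by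
  rw [deltaT_apply]; abel

/-- evaluation on powers -/
theorem eval_powT {t : A} (ht : t ∈ X.H 1 1) (b : ℕ) : ∀ (a : ℕ) (f : Module.End ℂ A),
    f ∈ P.T a b → ∃ x ∈ X.H 0 (a + b), ∀ j : ℕ,
      f (t ^ j) = ((j.choose b : ℕ) : ℂ) • (t ^ (j - b) * x) := by
  induction b with
  | zero =>
    intro a f hf
    obtain ⟨x, hx, rfl⟩ := (P.functions a f).1 hf
    refine ⟨x, hx, fun j => ?_⟩
    rw [LinearMap.mulLeft_apply, X.comm_pow_of_mem ht, Nat.choose_zero_right, Nat.cast_one,
      one_smul, Nat.sub_zero]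
  | succ b ih =>
    intro a f hf
    obtain ⟨x, hx, hj⟩ := ih (a + 1) (deltaT t f) (P.contract a b f t hf ht)
    refine ⟨x, by rwa [show a + (b + 1) = a + 1 + b by ring], fun j => ?_⟩
    induction j with
    | zero =>
      rw [pow_zero, P.vanish a (b + 1) 0 0 f 1 hf (by omega) X.one_mem]
      simp
    | succ j ihj =>
      rw [pow_succ', apply_mul, ihj, hj, mul_smul_comm, Nat.choose_succ_succ' j b,
        Nat.add_sub_add_right]
      have e : ((j.choose (b + 1) : ℕ) : ℂ) • (t * (t ^ (j - (b + 1)) * x)) =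
          ((j.choose (b + 1) : ℕ) : ℂ) • (t ^ (j - b) * x) := by
        rcases Nat.lt_or_ge j (b + 1) with h | h
        · rw [Nat.choose_eq_zero_of_lt h]
          simp
        · rw [← mul_assoc, ← pow_succ', show j - (b + 1) + 1 = j - b by omega]
      rw [e, ← add_smul]
      push_cast
      congr 1
      ring

/-- evaluation on the exponentials, homogeneous version -/
theorem eval_exT {t : A} (ht : t ∈ X.H 1 1) {a b : ℕ} {f : Module.End ℂ A} (hf : f ∈ P.T a b) :
    ∃ x ∈ X.H 0 (a + b), f (ex n t) = x * ex n t := by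
  obtain ⟨x, hx, hj⟩ := eval_powT P ht b a f hf
  refine ⟨(((b.factorial : ℕ) : ℂ)⁻¹) • x, Submodule.smul_mem _ _ hx, ?_⟩
  rw [ex_central X ht, mul_smul_comm]
  have hL : f (ex n t) = ∑ j ∈ Finset.range (b + (n + 1)),
      f ((((j.factorial : ℕ) : ℂ)⁻¹) • t ^ j) := by
    rw [ex_eq X ht (N := b + (n + 1)) (by omega), map_sum]
  rw [hL, Finset.sum_range_add, Finset.sum_eq_zero, zero_add]
  · unfold ex
    rw [Finset.sum_mul, Finset.smul_sum]
    refine Finset.sum_congr rfl fun i _ => ?_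
    rw [map_smul, hj, smul_smul, Nat.add_sub_cancel_left, smul_mul_assoc, smul_smul]
    congr 1
    have h1 : ((i.factorial : ℕ) : ℂ) ≠ 0 := Nat.cast_ne_zero.2 (Nat.factorial_ne_zero i)
    have h2 : ((b.factorial : ℕ) : ℂ) ≠ 0 := Nat.cast_ne_zero.2 (Nat.factorial_ne_zero b)
    have h3 : (((b + i).factorial : ℕ) : ℂ) ≠ 0 :=
      Nat.cast_ne_zero.2 (Nat.factorial_ne_zero (b + i))
    have h4 : (((b + i).choose b : ℕ) : ℂ) * ((b.factorial : ℕ) : ℂ) * ((i.factorial : ℕ) : ℂ) =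
        (((b + i).factorial : ℕ) : ℂ) := by
      have h5 := Nat.add_choose_mul_factorial_mul_factorial i b
      rw [add_comm i b] at h5
      have h6 : (b + i).choose b * b.factorial * i.factorial = (b + i).factorial := by
        rw [← h5]
        ring
      exact_mod_cast h6
    field_simp
    rw [← h4]
  · intro i hi
    rw [Finset.mem_range] at hi
    rw [map_smul, hj, Nat.choose_eq_zero_of_lt hi, Nat.cast_zero, zero_smul, smul_zero]

theorem exists_evalT {t : A} (ht : t ∈ X.H 1 1) {k : ℕ} {f : Module.End ℂ A}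
    (hf : f ∈ P.total k) : ∃ x ∈ X.H 0 k, f (ex n t) = x * ex n t := by
  refine P.total_induct (Q := fun f => ∃ x ∈ X.H 0 k, f (ex n t) = x * ex n t)
    (fun a b hab f hf => ?_) ⟨0, zero_mem _, by simp⟩ ?_ hf
  · obtain ⟨x, hx, h⟩ := eval_exT P ht hf
    exact ⟨x, hab ▸ hx, h⟩
  · rintro f g ⟨x, hx, h⟩ ⟨y, hy, h'⟩
    exact ⟨x + y, add_mem hx hy, by rw [LinearMap.add_apply, h, h', add_mul]⟩

end

theorem proj_mem {n : ℕ} {A : Type*} [Ring A] [Algebra ℂ A] (X : HodgeRing n A) (p q : ℕ)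
    (a : A) : X.proj p q a ∈ X.H p q := by
  refine X.induct (P := fun a => X.proj p q a ∈ X.H p q) (fun p' q' a ha => ?_) (by simp)
    (fun a b ha hb => by rw [map_add]; exact Submodule.add_mem _ ha hb) a
  rw [X.proj_of_mem p q ha]
  split_ifs with hpq
  · have e1 := (Prod.ext_iff.1 hpq).1
    have e2 := (Prod.ext_iff.1 hpq).2
    simp only at e1 e2
    subst e1 e2
    exact ha
  · exact Submodule.zero_mem _

theorem exists_smul_one {n : ℕ} {A : Type*} [Ring A] [Algebra ℂ A] (X : HodgeRing n A) {a : A}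
    (ha : a ∈ X.H 0 0) : ∃ c : ℂ, a = c • (1 : A) := by
  by_cases hone : (1 : A) = 0
  · refine ⟨0, ?_⟩
    rw [← one_mul a, hone, zero_mul, zero_smul]
  · obtain ⟨c, hc⟩ := (finrank_eq_one_iff_of_nonzero' (⟨1, X.one_mem⟩ : X.H 0 0) (by
      intro h6
      exact hone (congrArg Subtype.val h6))).1 X.connected ⟨a, ha⟩
    exact ⟨c, (congrArg Subtype.val hc).symm⟩

section rank

variable {n : ℕ} {A B : Type*} [Ring A] [Algebra ℂ A] [Ring B] [Algebra ℂ B]
  {X : HodgeRing n A} {Y : HodgeRing n B} {P : PolyvectorAction X} {Q : PolyvectorAction Y}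
  {phi : A ≃ₗ[ℂ] B} [FiniteDimensional ℂ A]

/-- the rank criterion -/
theorem h_le_of_rank (h : IsHochschildIso P Q phi) (hM : IsMukaiIsometry X Y phi) {t : A}
    (ht : t ∈ X.H 1 1) (hr : Y.proj 0 0 (phi (ex n t)) ≠ 0) (k : ℕ) : Y.h 0 k ≤ X.h 0 k := by
  have hcol : phi (ex n t) ∈ Y.column 0 := by
    rw [← hM.column 0]
    exact Submodule.mem_map_of_mem (ex_column X ht)
  let F : B →ₗ[ℂ] A := phi.symm.toLinearMap ∘ₗ LinearMap.mulRight ℂ (phi (ex n t))
  have hF : ∀ y, F y = phi.symm (y * phi (ex n t)) := fun y => rfl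
  have hinj : ∀ y ∈ Y.H 0 k, F y = 0 → y = 0 := by
    intro y hy h0
    rw [hF, LinearEquiv.map_eq_zero_iff] at h0
    have h3 := proj_mul hy hcol
    rw [h0, map_zero] at h3
    obtain ⟨c, hc⟩ := exists_smul_one Y (proj_mem Y 0 0 (phi (ex n t)))
    rw [hc, mul_smul_comm, mul_one] at h3
    rcases smul_eq_zero.1 h3.symm with h6 | h6
    · exact absurd (by rw [hc, h6, zero_smul]) hr
    · exact h6
  have h1 : (Y.H 0 k).map F ≤ (X.H 0 k).map (LinearMap.mulRight ℂ (ex n t)) := by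
    rintro _ ⟨y, hy, rfl⟩
    obtain ⟨x, hx, he⟩ := exists_evalT P ht (tr_mem h hy)
    rw [tr_apply] at he
    exact ⟨x, hx, by rw [hF, he]; rfl⟩
  have h2 := finrank_map_inj F hinj
  have h3 := Submodule.finrank_mono h1
  have h4 := Submodule.finrank_map_le (LinearMap.mulRight ℂ (ex n t)) (X.H 0 k)
  unfold HodgeRing.h
  omega

omit [FiniteDimensional ℂ A] in
/-- if the rank vanishes on all exponentials, then `phi⁻¹ [pt]` is orthogonal to all powers -/
theorem h0_of_rank (hphi : IsMukaiIsometry X Y phi) {pt : B} (hpt : pt ∈ Y.H n n)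
    (h0 : ∀ t ∈ X.H 1 1, Y.proj 0 0 (phi (ex n t)) = 0) {t : A} (ht : t ∈ X.H 1 1) (j : ℕ) :
    X.h0 (t ^ j) (phi.symm pt) = 0 := by
  have h1 : ∀ w : B, Y.h0 w pt = Y.h0 (Y.proj 0 0 w) pt := by
    refine Y.induct (P := fun w => Y.h0 w pt = Y.h0 (Y.proj 0 0 w) pt) (fun p q a ha => ?_)
      (by simp) (fun a b ha hb => by rw [map_add, Y.h0_add_left, Y.h0_add_left, ha, hb])
    rw [Y.proj_of_mem 0 0 ha]
    split_ifs with hpq
    · rfl
    · have h2 : Y.h0 a pt = 0 := by
        rw [HodgeRing.h0, Y.dual_of_mem ha, smul_mul_assoc, map_smul,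
          Y.int_off _ _ _ (Y.mul_mem _ _ _ _ _ _ ha hpt) (fun h3 => hpq ?_), smul_zero]
        simp only [Prod.mk.injEq] at h3 ⊢
        omega
      rw [h2]
      simp [HodgeRing.h0]
  rcases Nat.lt_or_ge n j with hj | hj
  · rw [pow_eq_zero_of_lt X ht hj]
    simp [HodgeRing.h0]
  -- a polynomial which vanishes everywhere
  let p : ℂ[X] := ∑ i ∈ Finset.range (n + 1),
    C ((((i.factorial : ℕ) : ℂ)⁻¹) * X.h0 (t ^ i) (phi.symm pt)) * Polynomial.X ^ i
  have hsum : ∀ (s : Finset ℕ) (f : ℕ → A) (w : A),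
      X.h0 (∑ i ∈ s, f i) w = ∑ i ∈ s, X.h0 (f i) w := by
    intro s f w
    simp only [HodgeRing.h0, map_sum, Finset.sum_mul]
  have hsmul : ∀ (z : ℂ) (v w : A), X.h0 (z • v) w = z * X.h0 v w := by
    intro z v w
    simp [HodgeRing.h0]
  have hp : ∀ s : ℂ, p.eval s = 0 := by
    intro s
    have h2 : X.h0 (ex n (s • t)) (phi.symm pt) = 0 := by
      rw [← hphi.h0, LinearEquiv.apply_symm_apply, h1, h0 _ (Submodule.smul_mem _ _ ht)]
      simp [HodgeRing.h0]
    rw [← h2]
    unfold ex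
    rw [hsum, eval_finsetSum]
    refine Finset.sum_congr rfl fun i _ => ?_
    rw [hsmul, _root_.smul_pow, hsmul, eval_mul, eval_C, eval_pow, eval_X]
    ring
  have hp0 : p = 0 := Polynomial.funext fun s => by rw [hp, eval_zero]
  have h3 : p.coeff j = (((j.factorial : ℕ) : ℂ)⁻¹) * X.h0 (t ^ j) (phi.symm pt) := by
    simp only [p, finsetSum_coeff, coeff_C_mul, coeff_X_pow, mul_ite, mul_one, mul_zero]
    rw [Finset.sum_ite_eq, if_pos (Finset.mem_range.2 (by omega))]
  rw [hp0, coeff_zero] at h3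
  have h4 : (((j.factorial : ℕ) : ℂ)⁻¹) ≠ 0 :=
    inv_ne_zero (Nat.cast_ne_zero.2 (Nat.factorial_ne_zero j))
  exact (mul_eq_zero.1 h3.symm).resolve_left h4

end rank

end Pool.Agent.Hodge98
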