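import Pool.Agent.Helper98.RF.Defs
import Pool.Agent.Helper98.RF.Expo
import Pool.Agent.Helper51.DI.BaseDefs

/-!
# A real isotropic class `k^b U` is not orthogonal to all powers of `(1,1)`-classes
-/

set_option autoImplicit false

namespace Pool.Agent.Hodge98

open Pool.Agent.Hodge81 Pool.Agent.Hodge51 Complex Module Polynomial

variable {n : ℕ} {A : Type*} [Ring A] [Algebra ℂ A] (X : HodgeRing n A)

/-- Poincare duality for types -/
theorem eq_zero_of_pairing {m j : ℕ} (hm : m + j = n) {a : A} (ha : a ∈ X.H m m)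
    (h0 : ∀ c ∈ X.H j j, X.int (a * c) = 0) : a = 0 := by
  refine X.poincare a fun c => ?_
  refine X.induct (P := fun c => X.int (a * c) = 0) (fun p q c hc => ?_) (by simp)
    (fun b c hb hc => by rw [mul_add, map_add, hb, hc, add_zero]) c
  have h1 := X.mul_mem _ _ _ _ _ _ ha hc
  by_cases hpq : p = j ∧ q = j
  · obtain ⟨rfl, rfl⟩ := hpq
    exact h0 c hc
  · exact X.int_off _ _ _ h1 fun h2 => hpq (by
      simp only [Prod.mk.injEq] at h2
      omega)

theorem proj_conj (p q : ℕ) (a : A) : X.conj (X.proj p q a) = X.proj q p (X.conj a) := by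
  refine X.induct (P := fun a => X.conj (X.proj p q a) = X.proj q p (X.conj a))
    (fun p' q' a ha => ?_) (by simp)
    (fun a b ha hb => by rw [map_add, map_add, map_add, map_add, ha, hb]) a
  rw [X.proj_of_mem p q ha, X.proj_of_mem q p (X.conj_mem _ _ _ ha)]
  by_cases h : (p', q') = (p, q)
  · rw [if_pos h, if_pos]
    simp only [Prod.mk.injEq] at h ⊢
    exact h.symm
  · rw [if_neg h, if_neg, map_zero]
    intro h'
    apply h
    simp only [Prod.mk.injEq] at h' ⊢
    exact h'.symm

/-- a class in column `0` is the sum of its components -/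
theorem column_sum {U : A} (hU : U ∈ X.column 0) :
    U = ∑ j ∈ Finset.range (n + 1), X.proj j j U := by
  refine X.column_induct (P := fun U => U = ∑ j ∈ Finset.range (n + 1), X.proj j j U)
    (fun p q hpq a ha => ?_) (by simp) (fun a b ha hb => ?_) hU
  · have hpq' : p = q := by omega
    subst hpq'
    rcases Nat.lt_or_ge n p with hp | hp
    · rw [X.bounded _ _ (Or.inl hp), Submodule.mem_bot] at ha
      rw [ha]
      simp
    · rw [Finset.sum_eq_single p]
      · rw [X.proj_of_mem p p ha, if_pos rfl]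
      · intro j _ hj
        rw [X.proj_of_mem j j ha, if_neg]
        intro h
        exact hj (Prod.ext_iff.1 h).1.symm
      · intro h
        exact absurd (Finset.mem_range.2 (by omega)) h
  · rw [Finset.sum_congr rfl fun j _ => map_add (X.proj j j) a b, Finset.sum_add_distrib,
      ← ha, ← hb]

variable {X}

/-- polarisation: orthogonality to the powers of `(1,1)`-classes implies orthogonality to their
products -/
theorem ort_mul {u y x : A} (hx : x ∈ X.H 1 1)
    (hy : ∀ t ∈ X.H 1 1, ∀ j, X.int (y * (t ^ j * u)) = 0) {t : A} (ht : t ∈ X.H 1 1) (j : ℕ) :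
    X.int (x * y * (t ^ j * u)) = 0 := by
  let F : ℕ → ℂ := fun i => X.int (y * (x ^ i * t ^ (j + 1 - i) * u))
  let p : ℂ[X] := ∑ i ∈ Finset.range (j + 1 + 1),
    C ((((j + 1).choose i : ℕ) : ℂ) * F i) * Polynomial.X ^ i
  have hp : ∀ z : ℂ, p.eval z = 0 := by
    intro z
    have h1 := hy (z • x + t) (Submodule.add_mem _ (Submodule.smul_mem _ _ hx) ht) (j + 1)
    have hc : Commute (z • x) t := by
      have : Commute x t := X.comm_of_mem ht x
      exact this.smul_left z
    rw [← h1, hc.add_pow, Finset.sum_mul, Finset.mul_sum, map_sum, eval_finsetSum]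
    refine Finset.sum_congr rfl fun i _ => ?_
    rw [eval_mul, eval_C, eval_pow, eval_X, _root_.smul_pow, ← nsmul_eq_mul',
      ← Nat.cast_smul_eq_nsmul ℂ]
    simp only [smul_mul_assoc, mul_smul_comm, map_smul, smul_eq_mul, F]
    ring
  have hp0 : p = 0 := Polynomial.funext fun s => by rw [hp, eval_zero]
  have h3 : p.coeff 1 = (((j + 1).choose 1 : ℕ) : ℂ) * F 1 := by
    simp only [p, finsetSum_coeff, coeff_C_mul, coeff_X_pow, mul_ite, mul_one, mul_zero]
    rw [Finset.sum_ite_eq, if_pos (Finset.mem_range.2 (by omega))]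
  rw [hp0, coeff_zero, Nat.choose_one_right] at h3
  have h4 : (((j + 1 : ℕ)) : ℂ) ≠ 0 := Nat.cast_ne_zero.2 (Nat.succ_ne_zero j)
  have h5 := (mul_eq_zero.1 h3.symm).resolve_left h4
  have h6 : F 1 = X.int (x * y * (t ^ j * u)) := by
    simp only [F]
    rw [pow_one, Nat.add_sub_cancel, mul_assoc x (t ^ j) u, ← mul_assoc y x, X.comm_of_mem hx y]
  rw [← h6]
  exact h5

/-- products of `(1,1)`-classes -/
theorem closure_mem {w : A} (hw : w ∈ Submonoid.closure (X.H 1 1 : Set A)) :
    ∃ j, w ∈ X.H j j := by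
  induction hw using Submonoid.closure_induction_left with
  | one => exact ⟨0, X.one_mem⟩
  | mul_left x hx y _ ih =>
    obtain ⟨j, hj⟩ := ih
    exact ⟨1 + j, X.mul_mem _ _ _ _ _ _ hx hj⟩

theorem closure_ort {u w : A} (hu : ∀ t ∈ X.H 1 1, ∀ j, X.int (t ^ j * u) = 0)
    (hw : w ∈ Submonoid.closure (X.H 1 1 : Set A)) : X.int (w * u) = 0 := by
  have key : ∀ t ∈ X.H 1 1, ∀ j, X.int (w * (t ^ j * u)) = 0 := by
    induction hw using Submonoid.closure_induction_left with
    | one =>
      intro t ht j
      rw [one_mul]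
      exact hu t ht j
    | mul_left x hx y _ ih =>
      intro t ht j
      exact ort_mul hx ih ht j
  have := key X.omega X.omega_mem 0
  rwa [pow_zero, one_mul] at this

/-- the components of `k^b U` -/
theorem comp_int {k : A} {b e : ℕ} (hk : k ∈ X.H 1 1) (hn : b + e = n) {U : A}
    (hU : U ∈ X.column 0) {j l : ℕ} (hjl : j + l = e) {a : A} (ha : a ∈ X.H j j) :
    X.int (a * (k ^ b * U)) = X.int (a * (k ^ b * X.proj l l U)) := by
  conv_lhs => rw [column_sum X hU, Finset.mul_sum, Finset.mul_sum, map_sum]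
  rw [Finset.sum_eq_single l]
  · intro i _ hi
    refine X.int_off _ _ _ (X.mul_mem _ _ _ _ _ _ ha (X.pow_mem hk (proj_mem X i i U) b)) ?_
    intro h
    simp only [Prod.mk.injEq] at h
    omega
  · intro h
    exact absurd (Finset.mem_range.2 (by omega)) h

/-- orthogonality of the components to the algebra generated by `H^{1,1}` -/
theorem adjoin_ort {k : A} {b e : ℕ} (hk : k ∈ X.H 1 1) (hn : b + e = n) {U : A}
    (hU : U ∈ X.column 0) (hort : ∀ t ∈ X.H 1 1, ∀ j, X.int (t ^ j * (k ^ b * U)) = 0)
    (l : ℕ) {r : A} (hr : r ∈ Algebra.adjoin ℂ (X.H 1 1 : Set A)) :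
    X.int (r * (k ^ b * X.proj l l U)) = 0 := by
  have h1 : r ∈ Submodule.span ℂ (Submonoid.closure (X.H 1 1 : Set A) : Set A) := by
    rw [← Algebra.adjoin_eq_span]
    exact hr
  induction h1 using Submodule.span_induction with
  | mem w hw =>
    obtain ⟨j, hj⟩ := closure_mem hw
    by_cases hjl : j + l = e
    · rw [← comp_int hk hn hU hjl hj]
      exact closure_ort hort hw
    · refine X.int_off _ _ _ (X.mul_mem _ _ _ _ _ _ hj (X.pow_mem hk (proj_mem X l l U) b)) ?_
      intro h
      simp only [Prod.mk.injEq] at h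
      omega
  | zero => simp
  | add x y hx hy ihx ihy =>
    have hx' : x ∈ Algebra.adjoin ℂ (X.H 1 1 : Set A) := by
      rw [← Algebra.adjoin_eq_span] at hx
      exact hx
    have hy' : y ∈ Algebra.adjoin ℂ (X.H 1 1 : Set A) := by
      rw [← Algebra.adjoin_eq_span] at hy
      exact hy
    rw [add_mul, map_add, ihx hx', ihy hy', add_zero]
  | smul z x hx ih =>
    have hx' : x ∈ Algebra.adjoin ℂ (X.H 1 1 : Set A) := by
      rw [← Algebra.adjoin_eq_span] at hx
      exact hx
    rw [smul_mul_assoc, map_smul, ih hx', smul_zero]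

/-- degrees `0` and `1` are always generated -/
theorem gen_all {k : A} {b e : ℕ} (hn : b + e = n) (hgen : GeneratedByDivisors X k b) {p : ℕ}
    (hp : 2 * p < e) {a : A} (ha : a ∈ X.H p p) :
    ∃ r ∈ Algebra.adjoin ℂ (X.H 1 1 : Set A), k ^ b * (a - r) = 0 := by
  obtain rfl | rfl | h2 : p = 0 ∨ p = 1 ∨ 2 ≤ p := by omega
  · obtain ⟨z, rfl⟩ := exists_smul_one X ha
    refine ⟨z • 1, Subalgebra.smul_mem _ (Subalgebra.one_mem _) z, ?_⟩
    rw [sub_self, mul_zero]
  · exact ⟨a, Algebra.subset_adjoin ha, by rw [sub_self, mul_zero]⟩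
  · exact hgen p h2 (by omega) a ha

theorem adjoin_central {r : A} (hr : r ∈ Algebra.adjoin ℂ (X.H 1 1 : Set A)) (v : A) :
    v * r = r * v := by
  induction hr using Algebra.adjoin_induction with
  | mem x hx => exact X.comm_of_mem hx v
  | algebraMap z => exact (Algebra.commutes z v).symm
  | add x y _ _ hx hy => rw [mul_add, add_mul, hx, hy]
  | mul x y _ _ hx hy => rw [← mul_assoc, hx, mul_assoc, hy, mul_assoc]

/-- the pairing of `k^b v` only depends on the second argument modulo the kernel of `k^b` -/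
theorem int_split {k : A} {b : ℕ} (hk : k ∈ X.H 1 1) {v c r : A} (h1 : k ^ b * (c - r) = 0)
    (hr : r ∈ Algebra.adjoin ℂ (X.H 1 1 : Set A)) :
    X.int (k ^ b * v * c) = X.int (r * (k ^ b * v)) := by
  have h2 : k ^ b * v * c = k ^ b * v * r + v * (k ^ b * (c - r)) := by
    rw [← mul_assoc v, X.comm_pow_of_mem hk, ← mul_add]
    congr 1
    abel
  rw [h2, h1, mul_zero, add_zero, adjoin_central hr]

theorem core {k : A} {b e : ℕ} (hs : IsPullback X k b) (hn : b + e = n)
    (hgen : GeneratedByDivisors X k b) {U : A} (hU : U ∈ X.column 0) (hreal : X.conj U = U)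
    (hiso : 0 < e → X.h0 (k ^ b * U) U = 0)
    (hort : ∀ t ∈ X.H 1 1, ∀ j, X.int (t ^ j * (k ^ b * U)) = 0) : k ^ b * U = 0 := by
  have hk := hs.mem
  have hmem : ∀ l, k ^ b * X.proj l l U ∈ X.H (l + b) (l + b) := fun l =>
    X.pow_mem hk (proj_mem X l l U) b
  have hR := fun l {r : A} hr => adjoin_ort (r := r) hk hn hU hort l hr
  have hre : ∀ l, X.conj (X.proj l l U) = X.proj l l U := fun l => by
    rw [proj_conj, hreal]
  have hkcomm : ∀ (a c : A), a * (k ^ b * c) = k ^ b * (a * c) := by
    intro a c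
    rw [← mul_assoc, X.comm_pow_of_mem hk, mul_assoc]
  -- large degrees
  have big : ∀ l, e < l → k ^ b * X.proj l l U = 0 := by
    intro l hl
    have := hmem l
    rwa [X.bounded _ _ (Or.inl (by omega)), Submodule.mem_bot] at this
  -- above the middle
  have upper : ∀ l, l ≤ e → e < 2 * l → k ^ b * X.proj l l U = 0 := by
    intro l hl hl2
    refine eq_zero_of_pairing X (m := l + b) (j := e - l) (by omega) (hmem l) fun c hc => ?_
    obtain ⟨r, hr, h1⟩ := gen_all hn hgen (p := e - l) (by omega) hc
    rw [int_split hk h1 hr]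
    exact hR l hr
  -- below the middle
  have lower : ∀ l, 2 * l < e → k ^ b * X.proj l l U = 0 := by
    intro l hl
    by_contra hne
    have hp1 : k ^ b * (X.omega ^ (e - 2 * l) * X.proj l l U) = 0 := by
      refine eq_zero_of_pairing X (m := l + (e - 2 * l) + b) (j := l) (by omega)
        (X.pow_mem hk (X.pow_mem X.omega_mem (proj_mem X l l U) _) b) fun c hc => ?_
      obtain ⟨r, hr, h1⟩ := gen_all hn hgen (p := l) hl hc
      rw [int_split hk h1 hr, ← hkcomm, ← mul_assoc]
      refine hR l (Subalgebra.mul_mem _ hr (Subalgebra.pow_mem _ (Algebra.subset_adjoin ?_) _))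
      exact X.omega_mem
    obtain ⟨s, hs', h2⟩ := hs.hodgeRiemann b le_rfl l l _ (proj_mem X l l U) (by omega) (by
      rw [show n - b - (l + l) + 1 = e - 2 * l + 1 by omega, pow_succ', mul_assoc,
        ← hkcomm, hp1, mul_zero]) hne
    rw [show n - b - (l + l) = e - 2 * l by omega, ← mul_assoc (k ^ b), hp1, zero_mul, map_zero,
      mul_zero] at h2
    exact hs'.ne' (by exact_mod_cast h2.symm)
  -- the middle
  have middle : ∀ l, 2 * l = e → k ^ b * X.proj l l U = 0 := by
    intro l hl
    rcases Nat.eq_zero_or_pos l with rfl | hlpos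
    · refine eq_zero_of_pairing X (m := 0 + b) (j := 0) (by omega) (hmem 0) fun c hc => ?_
      obtain ⟨z, rfl⟩ := exists_smul_one X hc
      have h1 := hR 0 (Subalgebra.one_mem _)
      rw [one_mul] at h1
      rw [mul_smul_comm, mul_one, map_smul, h1, smul_zero]
    by_contra hne
    have hp1 : k ^ b * (X.omega * X.proj l l U) = 0 := by
      have hm := X.mul_mem _ _ _ _ _ _ X.omega_mem (proj_mem X l l U)
      refine eq_zero_of_pairing X (m := 1 + l + b) (j := l - 1) (by omega)
        (X.pow_mem hk hm b) fun c hc => ?_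
      obtain ⟨r, hr, h1⟩ := gen_all hn hgen (p := l - 1) (by omega) hc
      rw [int_split hk h1 hr, ← hkcomm, ← mul_assoc]
      exact hR l (Subalgebra.mul_mem _ hr (Algebra.subset_adjoin X.omega_mem))
    obtain ⟨s, hs', h2⟩ := hs.hodgeRiemann b le_rfl l l _ (proj_mem X l l U) (by omega) (by
      rw [show n - b - (l + l) + 1 = 1 by omega, pow_one]
      exact hp1) hne
    rw [hre, show n - b - (l + l) = 0 by omega, pow_zero, one_mul] at h2
    have hzero : X.int (k ^ b * (X.proj l l U * X.proj l l U)) = 0 := by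
      have h3 := hiso (by omega)
      have hu : k ^ b * U = k ^ b * X.proj l l U := by
        conv_lhs => rw [column_sum X hU, Finset.mul_sum]
        rw [Finset.sum_eq_single l]
        · intro i _ hi
          rcases Nat.lt_or_ge e i with h5 | h5
          · exact big i h5
          rcases Nat.lt_or_ge e (2 * i) with h6 | h6
          · exact upper i h5 h6
          · exact lower i (by omega)
        · intro h
          exact absurd (Finset.mem_range.2 (by omega)) h
      rw [hu, HodgeRing.h0, X.dual_of_mem (hmem l), smul_mul_assoc, map_smul, smul_eq_mul] at h3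
      have h4 := (mul_eq_zero.1 h3).resolve_left (pow_ne_zero _ I_ne_zero)
      have h5 := comp_int (l := l) (j := l) hk hn hU (by omega) (proj_mem X l l U)
      have h6 : X.proj l l U * (k ^ b * U) = k ^ b * X.proj l l U * U := by
        rw [hkcomm, mul_assoc]
      rw [h6, h4, hkcomm] at h5
      exact h5.symm
    rw [hzero, mul_zero] at h2
    exact hs'.ne' (by exact_mod_cast h2.symm)
  rw [column_sum X hU, Finset.mul_sum]
  refine Finset.sum_eq_zero fun i _ => ?_
  rcases Nat.lt_or_ge e i with h5 | h5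
  · exact big i h5
  rcases Nat.lt_trichotomy (2 * i) e with h6 | h6 | h6
  · exact lower i h6
  · exact middle i h6
  · exact upper i h5 h6

end Pool.Agent.Hodge98
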