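import Pool.Agent.Helper81.Hodge.Defs

/-!
# Classes generated by divisors
-/

set_option autoImplicit false

namespace Pool.Agent.Hodge98

open Pool.Agent.Hodge81

/-- for `2 ≤ p < (n - b) / 2`, every class of type `(p,p)` is a polynomial in classes of type
`(1,1)`, up to a class which is annihilated by `k ^ b` -/
def GeneratedByDivisors {n : ℕ} {A : Type*} [Ring A] [Algebra ℂ A] (X : HodgeRing n A) (k : A)
    (b : ℕ) : Prop :=
  ∀ p : ℕ, 2 ≤ p → 2 * p + b < n → ∀ a ∈ X.H p p,
    ∃ r ∈ Algebra.adjoin ℂ (X.H 1 1 : Set A), k ^ b * (a - r) = 0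

end Pool.Agent.Hodge98
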