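import Pool.Agent.Helper98.RF.Core
import Pool.Agent.Helper51.DI.Base

/-!
# Holomorphic forms and derived equivalences which are linear over a base
-/

set_option autoImplicit false

namespace Pool.Agent.Hodge98

open Pool.Agent.Hodge81 Pool.Agent.Hodge51 Complex Module

variable {n : ℕ} {A B : Type*} [Ring A] [Algebra ℂ A] [FiniteDimensional ℂ A]
  [Ring B] [Algebra ℂ B] [FiniteDimensional ℂ B]
  {X : HodgeRing n A} {Y : HodgeRing n B} {P : PolyvectorAction X} {Q : PolyvectorAction Y}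
  {phi : A ≃ₗ[ℂ] B}

omit [FiniteDimensional ℂ A] [FiniteDimensional ℂ B] in
/-- some exponential has an image of non-zero rank -/
theorem exists_rank (hM : IsMukaiIsometry X Y phi) {kX : A} {kY : B}
    (hk : ∀ v, phi (kX * v) = kY * phi v) {b : ℕ} (hX : IsPullback X kX b)
    (hY : IsPullback Y kY b) (hYb : kY ^ b ≠ 0) (hgen : GeneratedByDivisors X kX b) :
    ∃ t ∈ X.H 1 1, Y.proj 0 0 (phi (ex n t)) ≠ 0 := by
  by_contra hcon
  push Not at hcon
  obtain ⟨e, he⟩ : ∃ e, b + e = n := ⟨n - b, by have := hX.le; omega⟩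
  -- the point class
  have hwe : Y.omega ^ e ∈ Y.H e e := by
    have := Y.pow_mem Y.omega_mem Y.one_mem e
    rwa [mul_one, zero_add] at this
  have hpt : kY ^ b * Y.omega ^ e ∈ Y.H n n := by
    have := Y.pow_mem hY.mem hwe b
    rwa [show e + b = n by omega] at this
  have hpt0 : kY ^ b * Y.omega ^ e ≠ 0 := by
    intro h0
    obtain ⟨r, hr, h2⟩ := hY.hodgeRiemann b le_rfl 0 0 1 Y.one_mem (by omega) (by
      have h3 := Y.pow_mem Y.omega_mem Y.one_mem (n - b - (0 + 0) + 1)
      have h4 := Y.pow_mem hY.mem h3 b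
      rw [Y.bounded _ _ (Or.inl (by omega)), Submodule.mem_bot] at h4
      exact h4) (by rwa [mul_one])
    rw [map_one, mul_one, mul_one, show n - b - (0 + 0) = e by omega, h0, map_zero,
      mul_zero] at h2
    exact hr.ne' (by exact_mod_cast h2.symm)
  -- its preimage
  set U : A := phi.symm (Y.omega ^ e) with hU
  have hphiU : phi U = Y.omega ^ e := by rw [hU, LinearEquiv.apply_symm_apply]
  have hkU : phi (kX ^ b * U) = kY ^ b * Y.omega ^ e := by
    rw [k_pow_mul hk, hphiU]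
  have hUc : U ∈ X.column 0 := by
    have h1 : Y.omega ^ e ∈ Y.column 0 := Y.mem_column (by simp) hwe
    rw [← hM.column 0] at h1
    obtain ⟨v, hv, h2⟩ := h1
    have h3 : v = U := by
      rw [hU, LinearEquiv.eq_symm_apply]
      exact h2
    rwa [← h3]
  have hUr : X.conj U = U := by
    apply phi.injective
    rw [hM.conj, hphiU, map_pow, Y.omega_real]
  have hiso : 0 < e → X.h0 (kX ^ b * U) U = 0 := by
    intro hpos
    rw [← hM.h0, hkU, hphiU, HodgeRing.h0, Y.dual_of_mem hpt, smul_mul_assoc, map_smul,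
      Y.int_off _ _ _ (Y.mul_mem _ _ _ _ _ _ hpt hwe) (fun h => by
        simp only [Prod.mk.injEq] at h
        omega), smul_zero]
  have hort : ∀ t ∈ X.H 1 1, ∀ j, X.int (t ^ j * (kX ^ b * U)) = 0 := by
    intro t ht j
    have h1 := h0_of_rank hM hpt hcon ht j
    rw [← hkU, LinearEquiv.symm_apply_apply, HodgeRing.h0] at h1
    have h2 : t ^ j ∈ X.H j j := by
      have := X.pow_mem ht X.one_mem j
      rwa [mul_one, zero_add] at this
    rw [X.dual_of_mem h2, smul_mul_assoc, map_smul, smul_eq_mul] at h1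
    exact (mul_eq_zero.1 h1).resolve_left (pow_ne_zero _ I_ne_zero)
  have h0 := core hX he hgen hUc hUr hiso hort
  rw [h0, map_zero] at hkU
  exact hpt0 hkU.symm

/-- the final statement -/
theorem relative_main (X : HodgeRing n A) (Y : HodgeRing n B) (phi : A ≃ₗ[ℂ] B)
    (hM : IsMukaiIsometry X Y phi) (kX : A) (kY : B)
    (hk : (∀ v, phi (kX * v) = kY * phi v) ∨
      ∃ s : ℝ, kX = (s : ℂ) • X.c1 ∧ kY = (s : ℂ) • Y.c1) (b : ℕ)
    (hX : IsPullback X kX b) (hY : IsPullback Y kY b) :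
    (∀ p q j : ℕ, j ≤ b → p + q + j = n →
      ∑ l ∈ Finset.range (min p q + 1),
          (if l % 2 = 1 then rankDim X kX j (p - l) (q - l) else 0) =
        ∑ l ∈ Finset.range (min p q + 1),
          (if l % 2 = 1 then rankDim Y kY j (p - l) (q - l) else 0)) ∧
    (∀ i : ℤ, (∀ p q j : ℕ, (p : ℤ) - q = i → p + q + j + 2 ≤ n → 4 ∣ n - 2 - (p + q + j) →
      kernelDim X kX j p q = kernelDim Y kY j p q) →
      ∀ p q : ℕ, (p : ℤ) - q = i → X.h p q = Y.h p q) ∧
    (kX ^ b ≠ 0 → (n ≤ b + 4 ∨ GeneratedByDivisors X kX b ∧ GeneratedByDivisors Y kY b) →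
      ∀ (P : PolyvectorAction X) (Q : PolyvectorAction Y), IsHochschildIso P Q phi →
        ∀ q : ℕ, X.h 0 q = Y.h 0 q) := by
  obtain ⟨h1, h2⟩ := base_main X Y phi hM kX kY hk b hX hY
  refine ⟨h1, h2, fun hXb hn P Q hphi q => ?_⟩
  obtain ⟨hgX, hgY⟩ : GeneratedByDivisors X kX b ∧ GeneratedByDivisors Y kY b := by
    rcases hn with hn | hn
    · exact ⟨fun p hp hp' => absurd hp' (by omega), fun p hp hp' => absurd hp' (by omega)⟩
    · exact hn
  have hk' : ∀ v, phi (kX * v) = kY * phi v := by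
    rcases hk with hk | ⟨s, rfl, rfl⟩
    · exact hk
    · intro v
      have := hM.sc1_pow_mul s 1 v
      simpa using this
  have hk'' : ∀ w, phi.symm (kY * w) = kX * phi.symm w := by
    intro w
    rw [LinearEquiv.symm_apply_eq, hk', LinearEquiv.apply_symm_apply]
  have hYb : kY ^ b ≠ 0 := by
    intro h0
    apply hXb
    have h3 := k_pow_mul hk' b (1 : A)
    rw [h0, zero_mul, mul_one] at h3
    exact phi.map_eq_zero_iff.1 h3
  obtain ⟨t, ht, hr⟩ := exists_rank hM hk' hX hY hYb hgX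
  obtain ⟨t', ht', hr'⟩ := exists_rank hM.symm hk'' hY hX hXb hgY
  exact le_antisymm (h_le_of_rank hphi.symm hM.symm ht' hr' q) (h_le_of_rank hphi hM ht hr q)

end Pool.Agent.Hodge98
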